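import Pool.Agent.MP_8d06cc_nt.AN.Jet

/-! Lifting certificates to finitely generated rings. -/

set_option autoImplicit false

namespace Pool.Agent.MP_8d06cc_nt.AN

open Polynomial AB

variable {K R : Type} [Field K] [CommRing R]

theorem unit_lift (φ : R →+* K) (hφ : Function.Injective φ) {a : R} (h : φ a ≠ 0)
    (h' : (φ a)⁻¹ ∈ Set.range φ) : IsUnit a := by
  obtain ⟨b, hb⟩ := h'
  exact IsUnit.of_mul_eq_one b (hφ (by rw [map_mul, hb, map_one, mul_inv_cancel₀ h]))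

theorem poly_lift (φ : R →+* K) {p : K[X]} (h : Set.range p.coeff ⊆ Set.range φ) :
    ∃ q : R[X], q.map φ = p :=
  (mem_lifts p).1 ((lifts_iff_coeff_lifts p).2 fun n => h ⟨n, rfl⟩)

theorem pts_lift {ι : Type} [Finite ι] {e : Fin 8 → K} {x y : ι → K} (h : Pts e x y) :
    ∃ u : Set K, u.Finite ∧ ∀ (R : Type) [CommRing R] (φ : R →+* K), Function.Injective φ →
      u ⊆ Set.range φ → ∀ (e1 : Fin 8 → R) (x1 y1 : ι → R), (∀ i, φ (e1 i) = e i) →
      (∀ p, φ (x1 p) = x p) → (∀ p, φ (y1 p) = y p) → Pts e1 x1 y1 := by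
  refine ⟨(Set.range fun q : Fin 8 × Fin 8 => (e q.1 - e q.2)⁻¹) ∪
    (Set.range fun q : ι × ι => (x q.1 - x q.2)⁻¹) ∪ Set.range fun p => (y p)⁻¹,
    ((Set.finite_range _).union (Set.finite_range _)).union (Set.finite_range _),
    fun R _ φ hφ hu e1 x1 y1 he hx hy => ⟨fun i j hn => ?_, fun p q hn => ?_, fun p => ?_,
      fun p => hφ ?_⟩⟩
  · refine unit_lift φ hφ ?_ ?_ <;> rw [map_sub, he, he]
    exacts [(h.de i j hn).ne_zero, hu (.inl (.inl ⟨(i, j), rfl⟩))]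
  · refine unit_lift φ hφ ?_ ?_ <;> rw [map_sub, hx, hx]
    exacts [(h.dx p q hn).ne_zero, hu (.inl (.inr ⟨(p, q), rfl⟩))]
  · refine unit_lift φ hφ ?_ ?_ <;> rw [hy]
    exacts [(h.uy p).ne_zero, hu (.inr ⟨p, rfl⟩)]
  · rw [map_pow, hy, h.eqn, fz_eval, fz_eval, map_prod]
    simp only [map_sub, hx, he]

theorem cert_lift {ι : Type} [Fintype ι] {e : Fin 8 → K} {x y : ι → K} {n : ι → ℤ} {ν : ℤ}
    (h : Cert e x y n ν) :
    ∃ u : Set K, u.Finite ∧ ∀ (R : Type) [CommRing R] (φ : R →+* K), Function.Injective φ →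
      u ⊆ Set.range φ → ∀ (e1 : Fin 8 → R) (x1 y1 : ι → R), (∀ i, φ (e1 i) = e i) →
      (∀ p, φ (x1 p) = x p) → (∀ p, φ (y1 p) = y p) → Cert e1 x1 y1 n ν := by
  obtain ⟨A, B, M, c, ⟨a, b, hab⟩, hc, hN, dA, dB, hp, hm, hν⟩ := h
  refine ⟨(Set.range A.coeff ∪ Set.range B.coeff) ∪ (Set.range a.coeff ∪ Set.range b.coeff) ∪
    {c, c⁻¹, (B.coeff (M - 4))⁻¹}, ((A.finite_range_coeff.union B.finite_range_coeff).union
      (a.finite_range_coeff.union b.finite_range_coeff)).union (Set.toFinite _),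
    fun R _ φ hφ hu e1 x1 y1 he hx hy => ?_⟩
  simp only [Set.union_subset_iff, Set.insert_subset_iff, Set.singleton_subset_iff] at hu
  obtain ⟨⟨⟨hA, hB⟩, ha, hb⟩, ⟨c1, rfl⟩, hc1, hB1⟩ := hu
  obtain ⟨A1, rfl⟩ := poly_lift φ hA
  obtain ⟨B1, rfl⟩ := poly_lift φ hB
  obtain ⟨a1, rfl⟩ := poly_lift φ ha
  obtain ⟨b1, rfl⟩ := poly_lift φ hb
  obtain rfl : (fun i => φ (e1 i)) = e := funext he
  obtain rfl : (fun i => φ (x1 i)) = x := funext hx
  obtain rfl : (fun i => φ (y1 i)) = y := funext hy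
  have hi := Polynomial.map_injective φ hφ
  rw [degree_map_eq_of_injective hφ] at dA dB
  refine ⟨A1, B1, M, c1, ⟨a1, b1, hi ?_⟩, unit_lift φ hφ hc.ne_zero hc1, hi ?_, dA, dB,
    fun p h => hφ ?_, fun p h => hφ ?_, hν.imp_right fun ⟨h4, hU, σ, h1, h2, h3⟩ =>
      ⟨h4, ?_, σ, h1, hφ ?_, h3⟩⟩
  · simpa using hab
  · simpa [fz_map, Polynomial.map_prod] using hN
  · simpa [eval_map_apply] using hp p h
  · simpa [eval_map_apply] using hm p h
  · rw [coeff_map] at hU hB1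
    exact unit_lift φ hφ hU.ne_zero hB1
  · simpa using h2

end Pool.Agent.MP_8d06cc_nt.AN
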