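import Pool.Agent.MP_8d06cc_nt.AB.Spec
import Pool.Agent.MP_8d06cc_nt.AN.Desc

/-! The ring that carries the new points and the certificates. -/

set_option autoImplicit false

namespace Pool.Agent.MP_8d06cc_nt.AN

open Polynomial MeasureTheory AB

theorem pts_down {K E ι : Type} [Field K] [Field E] (φ : K →+* E) {e : Fin 8 → K} {x y : ι → K}
    (h : Pts (fun i => φ (e i)) (fun p => φ (x p)) fun p => φ (y p)) : Pts e x y where
  de i j hn := Ne.isUnit fun h0 => (h.de i j hn).ne_zero (by rw [← map_sub, h0, map_zero])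
  dx p q hn := Ne.isUnit fun h0 => (h.dx p q hn).ne_zero (by rw [← map_sub, h0, map_zero])
  uy p := Ne.isUnit fun h0 => (h.uy p).ne_zero (by rw [h0, map_zero])
  eqn p := φ.injective (by
    rw [map_pow, h.eqn, fz_eval, fz_eval, map_prod]
    simp only [map_sub])

theorem cnt_fin (h : StmtCNT) (d M : ℕ) : ∃ c : ℝ, 0 < c ∧ ∀ (E : Type) [Field E] [CharZero E]
    (t : Fin d → E) (R : Subalgebra ℚ E) (J : Type) [Fintype J] (σ : J → R) (l : J → ℝ)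
    (V0 : Set (Fin d → ℂ)) (Δ : MvPolynomial (Fin d) ℚ), Fintype.card J ≤ M →
    AlgebraicIndependent ℚ t → (∀ a ∈ R, Alg t a) → (∀ i, 0 < l i) →
    IsOpen V0 → V0.Nonempty → volume V0 ≠ ⊤ → Δ ≠ 0 →
    (∀ τ ∈ V0, MvPolynomial.aeval τ Δ ≠ 0 → ∃ F : Fam t R, τ ∈ F.V ∧
      ∀ ξ, ‖ξ‖ ≤ ∑ i, l i * (‖F.D τ ξ (σ i)‖ / (1 + ‖F.Y τ (σ i)‖ ^ 2))) →
    ∃ (I : Fin d → J) (g : ℕ), 0 < g ∧ Big (fun k => (σ (I k) : E)) t g ∧
      c * (volume V0).toReal ≤ g * ∏ k, l (I k) ^ 2 := by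
  choose c c0 hc using h d
  refine ⟨(Finset.range (M + 1)).inf' ⟨0, by simp⟩ c, (Finset.lt_inf'_iff _).2 fun i _ => c0 i,
    fun E _ _ t R J _ σ l V0 Δ hM ht hR hl h1 h2 h3 h4 h5 => ?_⟩
  obtain ⟨I, g, -, g0, hb, hle⟩ := hc _ E t R (fun i => σ ((Fintype.equivFin J).symm i))
    (fun i => l ((Fintype.equivFin J).symm i)) V0 Δ ht hR (fun _ => hl _) h1 h2 h3 h4
    fun τ a b => by
      obtain ⟨F, hF, hξ⟩ := h5 τ a b
      exact ⟨F, hF, fun ξ => (hξ ξ).trans_eq ((Fintype.equivFin J).symm.sum_comp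
        fun i => l i * (‖F.D τ ξ (σ i)‖ / (1 + ‖F.Y τ (σ i)‖ ^ 2))).symm⟩
  exact ⟨fun k => (Fintype.equivFin J).symm (I k), g, g0, hb, le_trans
    (mul_le_mul_of_nonneg_right (Finset.inf'_le _ (Finset.mem_range.2 (by omega)))
      ENNReal.toReal_nonneg) hle⟩

theorem lift_all (hX : StmtEXT) (hD : StmtDESC) {E : Type} [Field E] [CharZero E] [IsAlgClosed E]
    {d : ℕ} {t : Fin d → E} {R : Subalgebra ℚ E} {e : Fin 8 → R} {n : ℕ} {ι : Fin n → Type}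
    [∀ i, Fintype (ι i)] {x y : ∀ i, ι i → R} {m : ∀ i, ι i → ℤ} {ν : Fin n → ℤ} {N : ℕ}
    (ht : AlgebraicIndependent ℚ t) (hR : ∀ a ∈ R, Alg t a) (hm : ∀ i, t i ∈ R)
    (S : ∀ i, Step (fun k => (e k : E)) (fun p => (x i p : E)) (fun p => (y i p : E)) (m i) (ν i) N)
    (hS : ∀ i q, Alg t ((S i).x' q) ∧ Alg t ((S i).y' q)) :
    ∃ (R1 : Subalgebra ℚ E) (h : R ≤ R1) (Δ : MvPolynomial (Fin d) ℚ)
      (x1 y1 : ∀ i, Fin (S i).g → R1), (∀ a ∈ R1, Alg t a) ∧ Δ ≠ 0 ∧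
      (∀ (F : Fam t R), ∀ τ ∈ F.V, MvPolynomial.aeval τ Δ ≠ 0 → ∃ F1 : Fam t R1, τ ∈ F1.V ∧
        F1.V ⊆ F.V ∧ ∀ σ ∈ F1.V, ∀ r : R, F1.Y σ (Subalgebra.inclusion h r) = F.Y σ r) ∧
      (∀ i q, (x1 i q : E) = (S i).x' q ∧ (y1 i q : E) = (S i).y' q) ∧
      ∀ i, Pts (fun k => Subalgebra.inclusion h (e k))
          (Sum.elim (fun p => Subalgebra.inclusion h (x i p)) (x1 i))
          (Sum.elim (fun p => Subalgebra.inclusion h (y i p)) (y1 i)) ∧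
        Cert (fun k => Subalgebra.inclusion h (e k))
          (Sum.elim (fun p => Subalgebra.inclusion h (x i p)) (x1 i))
          (Sum.elim (fun p => Subalgebra.inclusion h (y i p)) (y1 i))
          (Sum.elim (fun p => -(N * m i p) + (S i).ε p) (S i).m') (-(N * ν i) + (S i).ε0) := by
  let K := (algebraicClosure (IntermediateField.adjoin ℚ (Set.range t)) E).toSubfield
  have hK : ∀ a, a ∈ K ↔ Alg t a := fun a => mem_algebraicClosure_iff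
  have : IsAlgClosed K := (algebraicClosure.isAlgClosure
    (IntermediateField.adjoin ℚ (Set.range t)) E).isAlgClosed
  let eK : Fin 8 → K := fun k => ⟨e k, (hK _).2 (hR _ (e k).2)⟩
  let xK : ∀ i, ι i ⊕ Fin (S i).g → K := fun i p => ⟨Sum.elim (fun p => (x i p : E)) (S i).x' p,
    (hK _).2 (by rcases p with p | q; exacts [hR _ (x i p).2, (hS i q).1])⟩
  let yK : ∀ i, ι i ⊕ Fin (S i).g → K := fun i p => ⟨Sum.elim (fun p => (y i p : E)) (S i).y' p,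
    (hK _).2 (by rcases p with p | q; exacts [hR _ (y i p).2, (hS i q).2])⟩
  choose u u0 hu using fun i => pts_lift (pts_down (e := eK) (x := xK i) (y := yK i) K.subtype
    (S i).pts)
  choose v v0 hv using fun i => cert_lift (hD E _ K eK (xK i) (yK i) _ _ (S i).cert)
  obtain ⟨R1, h, Δ, h1, h2, h3, h4⟩ := hX E d t R
    (⋃ i, K.subtype '' (u i ∪ v i ∪ (Set.range (xK i) ∪ Set.range (yK i)))) ht hR hm
    (Set.finite_iUnion fun i => (((u0 i).union (v0 i)).union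
      ((Set.finite_range _).union (Set.finite_range _))).image _)
    (by
      intro a ha
      obtain ⟨i, b, -, rfl⟩ := Set.mem_iUnion.1 ha
      exact (hK _).1 b.2)
  have h5 : ∀ i, ∀ a ∈ u i ∪ v i ∪ (Set.range (xK i) ∪ Set.range (yK i)), (a : E) ∈ R1 :=
    fun i a ha => h1 (Set.mem_iUnion.2 ⟨i, a, ha, rfl⟩)
  let φ : R1 →+* K := R1.val.toRingHom.codRestrict K fun a => (hK _).2 (h2 _ a.2)
  have hφ : Function.Injective φ := fun a b hab =>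
    Subtype.ext (congrArg (fun z : K => (z : E)) hab)
  refine ⟨R1, h, Δ, fun i q => ⟨_, h5 i _ (.inr (.inl ⟨.inr q, rfl⟩))⟩,
    fun i q => ⟨_, h5 i _ (.inr (.inr ⟨.inr q, rfl⟩))⟩, h2, h3, h4, fun i q => ⟨rfl, rfl⟩,
    fun i => ⟨hu i R1 φ hφ (fun a ha => ⟨⟨a, h5 i a (.inl (.inl ha))⟩, rfl⟩) _ _ _
      (fun _ => rfl) ?_ ?_, hv i R1 φ hφ (fun a ha => ⟨⟨a, h5 i a (.inl (.inr ha))⟩, rfl⟩) _ _ _
      (fun _ => rfl) ?_ ?_⟩⟩ <;> rintro (p | q) <;> rfl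

end Pool.Agent.MP_8d06cc_nt.AN
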