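import Mathlib

/-! Linear algebra and inequalities for block AN. -/

namespace Pool.Agent.MP_8d06cc_nt.AN

open Filter
open scoped Topology

/-- An injective linear map on a finite dimensional space is bounded below. -/
theorem lower {E F : Type*} [NormedAddCommGroup E] [NormedSpace ℂ E] [FiniteDimensional ℂ E]
    [NormedAddCommGroup F] [NormedSpace ℂ F] (T : E →L[ℂ] F) (h : ∀ ξ, T ξ = 0 → ξ = 0) :
    ∃ c : ℝ, 0 < c ∧ ∀ ξ, c * ‖ξ‖ ≤ ‖T ξ‖ := by
  obtain ⟨K, hK, h1⟩ := (T : E →ₗ[ℂ] F).exists_antilipschitzWith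
    (LinearMap.ker_eq_bot'.2 h)
  have hK' : (0 : ℝ) < K := hK
  refine ⟨(K : ℝ)⁻¹, inv_pos.2 hK', fun ξ => ?_⟩
  have := h1.le_mul_dist ξ 0
  rw [dist_zero_right, map_zero, dist_zero_right] at this
  rw [inv_mul_le_iff₀ hK']
  exact this

/-- The lower bound persists near a point of continuity. -/
theorem lower_near {X E F : Type*} [TopologicalSpace X] [NormedAddCommGroup E] [NormedSpace ℂ E]
    [FiniteDimensional ℂ E] [NormedAddCommGroup F] [NormedSpace ℂ F] (T : X → E →L[ℂ] F) {x : X}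
    (hc : ContinuousAt T x) (h : ∀ ξ, T x ξ = 0 → ξ = 0) :
    ∃ c : ℝ, 0 < c ∧ ∀ᶠ y in 𝓝 x, ∀ ξ, c * ‖ξ‖ ≤ ‖T y ξ‖ := by
  obtain ⟨c, hc0, h1⟩ := lower (T x) h
  refine ⟨c / 2, half_pos hc0, ?_⟩
  filter_upwards [Metric.tendsto_nhds.1 hc (c / 2) (half_pos hc0)] with y hy ξ
  rw [dist_eq_norm] at hy
  have h2 := (T y - T x).le_opNorm ξ
  have h3 : ‖T x ξ‖ ≤ ‖T y ξ‖ + ‖(T y - T x) ξ‖ := by
    rw [sub_apply]
    exact norm_le_norm_add_norm_sub _ _
  have h4 := h1 ξ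
  nlinarith [norm_nonneg ξ, norm_nonneg (T y - T x)]

/-- From a bound by a sum to a bound by a sum of squares. -/
theorem sq_sum {ι : Type*} [Fintype ι] (a : ι → ℝ) {x : ℝ} (hx : 0 ≤ x) (h : x ≤ ∑ i, a i) :
    x ^ 2 ≤ Fintype.card ι * ∑ i, a i ^ 2 := by
  have := sq_sum_le_card_mul_sum_sq (s := Finset.univ) (f := a)
  rw [Finset.card_univ] at this
  exact (pow_le_pow_left₀ hx h 2).trans this

/-- The elimination of the error term. -/
theorem elim {n c C N b u k : ℝ} (hc : 0 < c) (hN : 0 < N) (hn : 0 ≤ n) (hCN : 2 * C ≤ c * N)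
    (h1 : c * n ≤ b + k) (h2 : N * b ≤ C * n + C * u) :
    n ≤ 2 * C / (c * N) * u + 2 / c * k := by
  have h3 : c * N * n ≤ 2 * C * u + 2 * N * k := by nlinarith
  rw [← mul_le_mul_iff_right₀ (mul_pos hc hN)]
  refine h3.trans (le_of_eq ?_)
  field_simp

end Pool.Agent.MP_8d06cc_nt.AN
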