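import Pool.Agent.MP_8d06cc_nt.AN.Jet
import Pool.Agent.MP_8d06cc_nt.AN.Lin

/-! Continuity of the derivatives of the Betti coordinates. -/

set_option autoImplicit false

namespace Pool.Agent.MP_8d06cc_nt.AN

open Polynomial Filter Topology AB

variable {X : Type} [TopologicalSpace X] {x0 : X}

theorem lam_sub {f : ℂ[X]} {Γ : Set ℂ} {Λ : (ℂ → ℂ) → Fin 3 → ℂ} (P : Proj f Γ Λ) {ρ σ : ℂ → ℂ}
    (hρ : ContinuousOn ρ Γ) (hσ : ContinuousOn σ Γ) : Λ ρ - Λ σ = Λ fun u => ρ u - σ u := by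
  have h := P.add (fun u => ρ u - σ u) σ (hρ.sub hσ) hσ
  simp only [sub_add_cancel] at h
  rw [sub_eq_iff_eq_add]
  exact h

theorem ev_cl {e : X → Fin 8 → ℂ} (hc : ∀ i, ContinuousAt (fun τ => (fz (e τ)).coeff i) x0)
    {g : ℂ[X]} {ε : ℝ} (h : Cl g ε (fz (e x0))) : ∀ᶠ τ in 𝓝 x0, Cl g ε (fz (e τ)) := by
  have h1 : ∀ i ∈ Finset.range 9, ∀ᶠ τ in 𝓝 x0, ‖(fz (e τ)).coeff i - g.coeff i‖ < ε :=
    fun i _ => ((hc i).sub continuousAt_const).norm.eventually_lt_const (h.2.2 i)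
  filter_upwards [(eventually_all_finset _).2 h1] with τ hτ
  refine ⟨fz_monic _, fz_deg _, fun i => ?_⟩
  by_cases hi : i < 9
  · exact hτ i (Finset.mem_range.2 hi)
  · have := h.2.2 i
    rw [coeff_eq_zero_of_natDegree_lt (by rw [fz_deg]; omega)] at this ⊢
    exact this

theorem cont_lam {f0 : ℂ[X]} {Z : Finset ℂ} (rn : RN f0 Z) (s : Fin rn.n) {e : X → Fin 8 → ℂ}
    (hc : ∀ i, ContinuousAt (fun τ => (fz (e τ)).coeff i) x0) (h0 : Cl f0 rn.ε (fz (e x0)))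
    (ρ : X → ℂ → ℂ) (hρ : ∀ᶠ τ in 𝓝 x0, ContinuousOn (ρ τ) (rn.Γ s)) {M : ℝ} (hM : 0 ≤ M)
    (hb : ∀ u ∈ rn.Γ s, ‖ρ x0 u‖ ≤ M)
    (hu : ∀ η : ℝ, 0 < η → ∀ᶠ τ in 𝓝 x0, ∀ u ∈ rn.Γ s, ‖ρ τ u - ρ x0 u‖ ≤ η) :
    ContinuousAt (fun τ => rn.Λ (fz (e τ)) s (ρ τ)) x0 := by
  have hK := rn.K0
  refine Metric.tendsto_nhds.2 fun η hη => ?_
  have hη' : 0 < η / (rn.K + M + 1) := by positivity
  obtain ⟨ε', h1, h2⟩ := rn.cont _ h0 _ hη'
  have h3 : Cl (fz (e x0)) ε' (fz (e x0)) := ⟨fz_monic _, fz_deg _, fun i => by simpa using h1⟩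
  filter_upwards [ev_cl hc h0, ev_cl hc h3, hρ, hu _ hη'] with τ a b c g
  have c0 := hρ.self_of_nhds
  have e1 := h2 _ a b s _ M c0 hM hb
  have e2 := rn.bdd _ s _ _ a (c.sub c0) hη'.le g
  have e3 := lam_sub (rn.proj _ s a) c c0
  rw [dist_eq_norm]
  calc _ ≤ ‖rn.Λ (fz (e τ)) s (ρ τ) - rn.Λ (fz (e τ)) s (ρ x0)‖ +
        ‖rn.Λ (fz (e τ)) s (ρ x0) - rn.Λ (fz (e x0)) s (ρ x0)‖ := norm_sub_le_norm_sub_add_norm_sub ..
    _ ≤ rn.K * (η / (rn.K + M + 1)) + η / (rn.K + M + 1) * M := add_le_add (e3 ▸ e2) e1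
    _ = η * ((rn.K + M) / (rn.K + M + 1)) := by ring
    _ < η := mul_lt_of_lt_one_right hη ((div_lt_one (by positivity)).2 (lt_add_one _))

theorem far_old {f0 : ℂ[X]} {Z : Finset ℂ} (rn : RN f0 Z) (s : Fin rn.n) {x : ℂ}
    (h : ∃ z ∈ Z, ‖x - z‖ < rn.δ) : ∀ u ∈ rn.Γ s, rn.δ ≤ ‖u - x‖ := by
  obtain ⟨z, hz, h⟩ := h
  intro u hu
  have h1 := rn.farZ s z hz u hu
  have h2 := norm_sub_le_norm_sub_add_norm_sub u x z
  linarith

theorem ev_near {Z : Finset ℂ} {δ : ℝ} {x : X → ℂ} (hx : ContinuousAt x x0)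
    (h : ∃ z ∈ Z, ‖x x0 - z‖ < δ) : ∀ᶠ τ in 𝓝 x0, ∃ z ∈ Z, ‖x τ - z‖ < δ := by
  obtain ⟨z, hz, h⟩ := h
  filter_upwards [(hx.sub continuousAt_const).norm.eventually_lt_const h] with τ hτ
  exact ⟨z, hz, hτ⟩

theorem cont_pole {f0 : ℂ[X]} {Z : Finset ℂ} (rn : RN f0 Z) (s : Fin rn.n) {e : X → Fin 8 → ℂ}
    (hc : ∀ i, ContinuousAt (fun τ => (fz (e τ)).coeff i) x0) (h0 : Cl f0 rn.ε (fz (e x0)))
    {x y : X → ℂ} (hx : ContinuousAt x x0) (hy : ContinuousAt y x0)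
    (h : ∃ z ∈ Z, ‖x x0 - z‖ < rn.δ) :
    ContinuousAt (fun τ => rn.Λ (fz (e τ)) s fun u => y τ / (u - x τ)) x0 := by
  have hδ := rn.δ0
  have hf := (ev_near hx h).mono fun τ hτ => far_old rn s hτ
  have f0 := far_old rn s h
  refine cont_lam rn s hc h0 (fun τ u => y τ / (u - x τ)) ?_ (M := ‖y x0‖ / rn.δ)
    (by positivity) (fun u hu => ?_) fun η hη => ?_
  · filter_upwards [hf] with τ hτ
    exact continuousOn_const.div (continuousOn_id.sub continuousOn_const) fun u hu =>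
      norm_pos_iff.1 (hδ.trans_le (hτ u hu))
  · rw [norm_div]
    exact div_le_div_of_nonneg_left (norm_nonneg _) hδ (f0 u hu)
  · have h1 : ContinuousAt (fun τ => ‖y τ - y x0‖ / rn.δ + ‖y x0‖ * ‖x τ - x x0‖ / rn.δ ^ 2) x0 := by
      fun_prop
    filter_upwards [hf, h1.eventually_lt_const (show _ < η by simpa using hη)] with τ hτ h2 u hu
    have a := hτ u hu
    have b := f0 u hu
    have a' : u - x τ ≠ 0 := norm_pos_iff.1 (hδ.trans_le a)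
    have b' : u - x x0 ≠ 0 := norm_pos_iff.1 (hδ.trans_le b)
    have e1 : y τ / (u - x τ) - y x0 / (u - x x0) =
        (y τ - y x0) / (u - x τ) + y x0 * (x τ - x x0) / ((u - x τ) * (u - x x0)) := by
      field_simp
      ring
    rw [e1]
    refine (norm_add_le _ _).trans (le_trans (add_le_add ?_ ?_) h2.le)
    · rw [norm_div]
      exact div_le_div_of_nonneg_left (norm_nonneg _) hδ a
    · rw [norm_div, norm_mul, norm_mul, sq]
      exact div_le_div_of_nonneg_left (by positivity) (by positivity)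
        (mul_le_mul a b hδ.le (norm_nonneg _))

theorem cont_cube {f0 : ℂ[X]} {Z : Finset ℂ} (rn : RN f0 Z) (s : Fin rn.n) {e : X → Fin 8 → ℂ}
    (hc : ∀ i, ContinuousAt (fun τ => (fz (e τ)).coeff i) x0) (h0 : Cl f0 rn.ε (fz (e x0))) :
    ContinuousAt (fun τ => rn.Λ (fz (e τ)) s fun u => u ^ 3) x0 := by
  have hK := rn.K0
  refine cont_lam rn s hc h0 (fun _ u => u ^ 3) (.of_forall fun _ => by fun_prop) (M := rn.K ^ 3)
    (by positivity) (fun u hu => ?_) fun η hη => .of_forall fun _ u _ => by simpa using hη.le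
  rw [norm_pow]
  exact pow_le_pow_left₀ (norm_nonneg _) (rn.rad s u hu) 3

theorem cont_qv {q : X → Fin 3 → ℂ} {x : X → ℂ} (hq : ContinuousAt q x0)
    (hx : ContinuousAt x x0) : ContinuousAt (fun τ => qv (q τ) (x τ)) x0 :=
  tendsto_finsetSum _ fun j _ => ((continuousAt_pi.1 hq j).mul (hx.pow _))

theorem cont_Sg {e ev : X → Fin 8 → ℂ} {g : X → ℂ → ℂ} (he : ∀ i, ContinuousAt (e · i) x0)
    (hv : ∀ i, ContinuousAt (ev · i) x0) (hg : ∀ i, ContinuousAt (fun τ => g τ (e τ i)) x0)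
    (hi : Function.Injective (e x0)) (j : Fin 3) :
    ContinuousAt (fun τ => Sg (e τ) (ev τ) (g τ) j) x0 :=
  tendsto_finsetSum _ fun i _ => ContinuousAt.div₀ (((hg i).mul (hv i)).mul ((he i).pow _))
    (tendsto_finsetProd _ fun k _ => (he i).sub (he k))
    (Finset.prod_ne_zero_iff.2 fun _ hk => sub_ne_zero.2 fun h =>
      Finset.ne_of_mem_erase hk (hi h).symm)

end Pool.Agent.MP_8d06cc_nt.AN
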