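import Pool.Agent.MP_8d06cc_nt.AB.Spec
import Pool.Agent.MP_8d06cc_nt.AN.Cont

/-! The upper bound that one certificate gives. -/

set_option autoImplicit false

namespace Pool.Agent.MP_8d06cc_nt.AN

open Polynomial Filter Topology AB

theorem nsm {k : ℤ} (h : |k| ≤ 12) (v : Fin 3 → ℂ) {b : ℝ} (hv : ‖v‖ ≤ b) :
    ‖(k : ℂ) • v‖ ≤ 12 * b := by
  rw [norm_smul, Complex.norm_intCast]
  exact mul_le_mul (by exact_mod_cast h) hv (norm_nonneg _) (by norm_num)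

theorem step_bound (hB : StmtBREL) {f0 : ℂ[X]} {Z : Finset ℂ} (rn : RN f0 Z) (s0 : Fin rn.n)
    {R : Type} [CommRing R] (J : Jet R) {ι : Type} [Fintype ι] {g : ℕ} (g3 : g ≤ 3)
    {e : Fin 8 → R} {x y : ι → R} {x' y' : Fin g → R} {m ε : ι → ℤ} {m' : Fin g → ℤ} {ν ε0 : ℤ}
    {N : ℕ} (bm : ∀ q, |m' q| ≤ 12) (bε : ∀ p, |ε p| ≤ 12) (bε0 : |ε0| ≤ 12)
    (hp : Pts e (Sum.elim x x') (Sum.elim y y'))
    (hc : Cert e (Sum.elim x x') (Sum.elim y y') (Sum.elim (fun p => -(N * m p) + ε p) m')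
      (-(N * ν) + ε0))
    (hcl : Cl f0 rn.ε (fz fun i => J.ev (e i))) (hz : ∀ p, ∃ z ∈ Z, ‖J.ev (x p) - z‖ < rn.δ)
    {K b : ℝ} (K0 : 0 ≤ K) (b0 : 0 ≤ b)
    (hE : ∀ (ev : Fin 8 → ℂ) (s : Fin rn.n), ‖BtI (rn.Λ (fz fun i => J.ev (e i)) s)
      (fun i => J.ev (e i)) ev‖ ≤ K * ‖ev‖ ∧ ∀ x y xv yv : ℂ, y ≠ 0 →
      y ^ 2 = (fz fun i => J.ev (e i)).eval x →
      2 * y * yv = ∑ i, (xv - ev i) * ∏ i' ∈ Finset.univ.erase i, (x - J.ev (e i')) →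
      (∀ u ∈ rn.Γ s, rn.δ ≤ ‖u - x‖) →
      ‖Bt (rn.Λ (fz fun i => J.ev (e i)) s) (fun i => J.ev (e i)) ev x y xv‖ ≤
        K * (‖xv‖ / (1 + ‖x‖ ^ 2) + ‖yv‖ / (1 + ‖y‖ ^ 2) + ‖ev‖))
    (he : ∀ i, ‖J.dt (e i)‖ ≤ b) (hx : ∀ p, ‖J.dt (x p)‖ ≤ b) (hy : ∀ p, ‖J.dt (y p)‖ ≤ b) :
    N * ‖BtE (rn.Λ (fz fun i => J.ev (e i)) s0) J.ev J.dt e x y m ν‖ ≤
      12 * K * (3 * Fintype.card ι + 4) * b + 12 * K * ∑ q,
        (‖J.dt (x' q)‖ / (1 + ‖J.ev (x' q)‖ ^ 2) + ‖J.dt (y' q)‖ / (1 + ‖J.ev (y' q)‖ ^ 2)) := by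
  classical
  obtain ⟨s, hs⟩ := rn.far (Finset.univ.image fun q => J.ev (x' q))
    (Finset.card_image_le.trans (by simpa using g3))
  have far : ∀ p, ∀ u ∈ rn.Γ s, rn.δ ≤ ‖u - J.ev (Sum.elim x x' p)‖ := by
    rintro (p | q)
    exacts [far_old rn s (hz p), hs _ (Finset.mem_image_of_mem _ (Finset.mem_univ q))]
  have h0 := hB R (ι ⊕ Fin g) J e _ _ _ _ _ _ hp hc (rn.proj _ s hcl)
    fun p h => by simpa using rn.δ0.trans_le (far p _ h)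
  have h1 : ∀ p, _ := fun p => rn.indep _ s0 s (J.ev (x p)) (J.ev (y p)) hcl (hz p)
  have h3 := rn.indep3 _ s0 s hcl
  have hev : ‖fun i => J.dt (e i)‖ ≤ b := (pi_norm_le_iff_of_nonneg b0).2 he
  set Λ := rn.Λ (fz fun i => J.ev (e i)) s with hΛ
  set P := fun p => Bt Λ (fun i => J.ev (e i)) (fun i => J.dt (e i)) (J.ev (Sum.elim x x' p))
    (J.ev (Sum.elim y y' p)) (J.dt (Sum.elim x x' p)) with hP
  have hPb : ∀ p, ‖P p‖ ≤ K * (‖J.dt (Sum.elim x x' p)‖ / (1 + ‖J.ev (Sum.elim x x' p)‖ ^ 2) +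
      ‖J.dt (Sum.elim y y' p)‖ / (1 + ‖J.ev (Sum.elim y y' p)‖ ^ 2) + b) := fun p =>
    ((hE _ s).2 _ _ _ _ ((hp.uy p).map _).ne_zero (jet_pt J (hp.eqn p)).1 (jet_pt J (hp.eqn p)).2
      (far p)).trans (by gcongr)
  have key : (N : ℂ) • BtE (rn.Λ (fz fun i => J.ev (e i)) s0) J.ev J.dt e x y m ν =
      ∑ p, (ε p : ℂ) • P (.inl p) + ∑ q, (m' q : ℂ) • P (.inr q) +
        (ε0 : ℂ) • BtI Λ (fun i => J.ev (e i)) fun i => J.dt (e i) := by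
    funext j
    have h2 : BtE (rn.Λ (fz fun i => J.ev (e i)) s0) J.ev J.dt e x y m ν j =
        BtE Λ J.ev J.dt e x y m ν j := by simp only [BtE, Bt, BtI, h1, h3]
    have h4 := h0 j
    simp only [BtE, Fintype.sum_sum_type, Sum.elim_inl, Sum.elim_inr, Int.cast_add, Int.cast_neg,
      Int.cast_mul, Int.cast_natCast, add_mul, Finset.sum_add_distrib, neg_mul,
      Finset.sum_neg_distrib, mul_assoc, ← Finset.mul_sum] at h4
    simp only [Pi.smul_apply, h2, Pi.add_apply, Finset.sum_apply, smul_eq_mul, hP, Sum.elim_inl,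
      Sum.elim_inr]
    rw [BtE]
    linear_combination -h4
  have d1 : ∀ a c : ℝ, 0 ≤ a → a ≤ b → a / (1 + c ^ 2) ≤ b := fun a c h h' =>
    (div_le_self h (le_add_of_nonneg_right (sq_nonneg _))).trans h'
  have e1 : ∀ p, ‖(ε p : ℂ) • P (.inl p)‖ ≤ 12 * (K * (b + b + b)) := fun p =>
    nsm (bε p) _ ((hPb _).trans (mul_le_mul_of_nonneg_left (add_le_add (add_le_add
      (d1 _ _ (norm_nonneg _) (hx p)) (d1 _ _ (norm_nonneg _) (hy p))) le_rfl) K0))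
  have e2 := Finset.sum_le_sum fun q (_ : q ∈ Finset.univ) => nsm (bm q) _ (hPb (.inr q))
  have e3 := nsm bε0 _ ((hE _ s).1.trans (mul_le_mul_of_nonneg_left hev K0))
  have e4 := Finset.sum_le_sum fun p (_ : p ∈ Finset.univ) => e1 p
  simp only [Sum.elim_inr, ← Finset.mul_sum, Finset.sum_add_distrib (g := fun _ => b),
    Finset.sum_const, Finset.card_univ, Fintype.card_fin, nsmul_eq_mul] at e2 e4
  have g3' : (g : ℝ) ≤ 3 := by exact_mod_cast g3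
  have e5 := mul_le_mul_of_nonneg_left g3' (mul_nonneg K0 b0)
  rw [← Complex.norm_natCast, ← norm_smul, key]
  refine norm_add₃_le.trans ((add_le_add (add_le_add ((norm_sum_le _ _).trans e4)
    ((norm_sum_le _ _).trans e2)) e3).trans ?_)
  linarith

end Pool.Agent.MP_8d06cc_nt.AN
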