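import Pool.Agent.MP_8d06cc_nt.AN.Low
import Pool.Agent.MP_8d06cc_nt.AN.Step
import Pool.Agent.MP_8d06cc_nt.AN.Ring

/-! Block AN. -/

set_option autoImplicit false

namespace Pool.Agent.MP_8d06cc_nt.AN

open Polynomial Filter Topology MeasureTheory AB

theorem prod_w {d : ℕ} {A B : Type} (I : Fin d → A ⊕ B) (L : ℝ) {N : ℝ} (hN : N ≠ 0) :
    (∏ k, Sum.elim (fun _ => L / N) (fun _ => L) (I k) ^ 2) *
      N ^ (2 * (Finset.univ.filter fun k => (I k).isLeft).card) = (L ^ 2) ^ d := by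
  rw [pow_mul, ← Finset.prod_const, Finset.prod_filter, ← Finset.prod_mul_distrib,
    ← Fin.prod_const d (L ^ 2)]
  refine Finset.prod_congr rfl fun k _ => ?_
  rcases I k with a | b
  · simp only [Sum.elim_inl, Sum.isLeft_inl, if_true]
    field_simp
  · simp

theorem an (hB : StmtBREL) (hE : StmtEST) (hX : StmtEXT) (hC : StmtCNT) (hD : StmtDESC) :
    StmtAN := by
  intro E _ _ _ d t R F e n ι _ x y m ν κ _ kap ht hR he hp ⟨f0, Z, rn, s0, τ0, h0, hcl, hz, hi⟩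
  obtain ⟨c0, c00, hlow⟩ := low F m ν kap hp rn s0 h0 hcl hz hi
  obtain ⟨η, K, η0, K0, hest⟩ := hE f0 Z rn (fun i => F.Y τ0 (e i)) (inj_e he _)
  obtain ⟨b, b0, hb⟩ := fam_bds F h0 (ι := Fin 8 ⊕ (Σ i, ι i ⊕ ι i) ⊕ κ)
    (Sum.elim e (Sum.elim (fun q => Sum.elim (x q.1) (y q.1) q.2) kap))
  have ev1 := ev_cl (cont_coeff F h0 e) hcl
  have ev2 : ∀ᶠ τ in 𝓝 τ0, ∀ i p, ∃ z ∈ Z, ‖F.Y τ (x i p) - z‖ < rn.δ :=
    eventually_all.2 fun i => eventually_all.2 fun p => ev_near (fam_cont F h0 _) (hz i p)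
  have ev3 : ∀ᶠ τ in 𝓝 τ0, ‖(fun i => F.Y τ (e i)) - fun i => F.Y τ0 (e i)‖ < η :=
    ((continuousAt_pi.2 fun i => fam_cont F h0 (e i)).sub
      continuousAt_const).norm.eventually_lt_const (by simpa using η0)
  obtain ⟨r, r0, hr⟩ := Metric.eventually_nhds_iff_ball.1
    ((hlow.and hb).and ((ev1.and ev2).and (ev3.and (F.op.mem_nhds h0))))
  obtain ⟨c1, c10, hcnt⟩ := cnt_fin hC d (n * 6 + Fintype.card κ)
  have v1 : volume (Metric.ball τ0 r) ≠ ⊤ := measure_ball_lt_top.ne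
  have v0 : 0 < (volume (Metric.ball τ0 r)).toReal :=
    ENNReal.toReal_pos (Metric.measure_ball_pos _ _ r0).ne' v1
  obtain ⟨A, hA⟩ : ∃ A : ℝ, A = 12 * K * (∑ i, (3 * Fintype.card (ι i) + 4 : ℝ)) * b := ⟨_, rfl⟩
  have A0 : 0 ≤ A := by rw [hA]; positivity
  obtain ⟨L, hL⟩ : ∃ L : ℝ, L = 2 * (A + 12 * K) / c0 + 2 / c0 * (1 + b ^ 2) := ⟨_, rfl⟩
  have L0 : 0 < L := by rw [hL]; positivity
  obtain ⟨N0, hN0⟩ := exists_nat_gt (2 * (A + 12 * K) / c0)
  refine ⟨c1 * (volume (Metric.ball τ0 r)).toReal / (L ^ 2) ^ d, N0, by positivity,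
    fun N hN S hS => ?_⟩
  have hN1 : 2 * (A + 12 * K) / c0 < N := hN0.trans_le (by exact_mod_cast hN)
  have N0 : (0 : ℝ) < N := lt_of_le_of_lt (by positivity) hN1
  obtain ⟨R1, h, Δ, x1, y1, h1, h2, h3, h4, h5⟩ := lift_all hX hD ht hR F.mem S hS
  obtain ⟨I, g, g0, hbig, hle⟩ := hcnt E t R1 ((Σ i, Fin (S i).g ⊕ Fin (S i).g) ⊕ κ)
    (Sum.elim (fun q => Sum.elim (x1 q.1) (y1 q.1) q.2) fun l => Subalgebra.inclusion h (kap l))
    (Sum.elim (fun _ => L / N) fun _ => L) (Metric.ball τ0 r) Δ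
    (by
      rw [Fintype.card_sum, Fintype.card_sigma]
      refine Nat.add_le_add_right ((Finset.sum_le_card_nsmul _ _ 6 fun i _ => ?_).trans
        (by simp)) _
      have := (S i).g3
      simp only [Fintype.card_sum, Fintype.card_fin]
      omega)
    ht h1 (by rintro (a | a) <;> simp only [Sum.elim_inl, Sum.elim_inr] <;> positivity)
    Metric.isOpen_ball (Metric.nonempty_ball.2 r0) v1 h2 fun τ hτ hΔ => by
      obtain ⟨⟨a1, a2⟩, ⟨a3, a4⟩, a5, a6⟩ := hr τ hτ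
      obtain ⟨F1, b1, -, b2⟩ := h3 F τ a6 hΔ
      refine ⟨F1, b1, fun ξ => ?_⟩
      have eY := b2 τ b1
      have eD := fam_ext F F1 _ b2 b1 ξ
      have st := fun i => step_bound hB rn s0 (jet F1 b1 ξ) (S i).g3 (S i).bm (S i).bε (S i).bε0
        (h5 i).1 (h5 i).2 (K := K) (b := b * ‖ξ‖) (by simpa only [jet, eY] using a3)
        (by simpa only [jet, eY] using a4 i) K0.le (by positivity)
        (by simpa only [jet, eY] using fun ev s => hest _ ev s a5 a3)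
        (fun k => by simpa only [jet, eD, Sum.elim_inl, Sum.elim_inr] using (a2 (.inl k)).2 ξ)
        (fun p => by simpa only [jet, eD, Sum.elim_inl, Sum.elim_inr] using (a2 (.inr (.inl ⟨i, .inl p⟩))).2 ξ)
        (fun p => by simpa only [jet, eD, Sum.elim_inl, Sum.elim_inr] using (a2 (.inr (.inl ⟨i, .inr p⟩))).2 ξ)
      have eB : ∀ i, BtE (rn.Λ (fz fun k => F1.Y τ (Subalgebra.inclusion h (e k))) s0) (F1.Y τ)
          (F1.D τ ξ) (fun k => Subalgebra.inclusion h (e k))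
          (fun p => Subalgebra.inclusion h (x i p)) (fun p => Subalgebra.inclusion h (y i p))
          (m i) (ν i) = BtE (rn.Λ (fz fun k => F.Y τ (e k)) s0) (F.Y τ) (F.D τ ξ) e (x i) (y i)
          (m i) (ν i) := fun i => funext fun j => by simp only [BtE, eY, eD]
      simp only [jet, eB] at st
      have s1 := Finset.sum_le_sum fun i (_ : i ∈ Finset.univ) => st i
      rw [Finset.sum_add_distrib] at s1
      simp only [← Finset.mul_sum, ← Finset.sum_mul] at s1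
      simp only [Fintype.sum_sum_type, Fintype.sum_sigma, Sum.elim_inl, Sum.elim_inr,
        ← Finset.sum_add_distrib, ← Finset.mul_sum, eY, eD]
      set u := ∑ i, ∑ q, (‖F1.D τ ξ (x1 i q)‖ / (1 + ‖F1.Y τ (x1 i q)‖ ^ 2) +
        ‖F1.D τ ξ (y1 i q)‖ / (1 + ‖F1.Y τ (y1 i q)‖ ^ 2))
      have u0 : 0 ≤ u := by positivity
      have n0 := norm_nonneg ξ
      have s2 := elim (C := A + 12 * K) (u := u) c00 N0 n0
        (by rw [div_lt_iff₀ c00] at hN1; linarith) (a1 ξ)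
        (s1.trans (by rw [← mul_assoc _ b, ← hA]; nlinarith [mul_nonneg K0.le n0, mul_nonneg A0 u0]))
      refine s2.trans (add_le_add (mul_le_mul_of_nonneg_right ?_ u0) ?_)
      · rw [← div_div, hL]
        exact div_le_div_of_nonneg_right (le_add_of_nonneg_right (by positivity)) N0.le
      · have hL' : 2 / c0 * (1 + b ^ 2) ≤ L := hL ▸ le_add_of_nonneg_left (by positivity)
        refine le_trans ?_ (mul_le_mul_of_nonneg_right hL' (by positivity))
        rw [mul_assoc, Finset.mul_sum _ _ (1 + b ^ 2)]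
        refine mul_le_mul_of_nonneg_left (Finset.sum_le_sum fun l _ => ?_) (by positivity)
        rw [← mul_div_assoc, le_div_iff₀ (by positivity), mul_comm]
        have : ‖F.Y τ (kap l)‖ ≤ b := (a2 (.inr (.inr l))).1
        gcongr
  refine ⟨_, Finset.univ.filter fun k => (I k).isLeft, g, g0, hbig, fun k hk => ?_,
    fun k hk => ?_, ?_⟩
  · obtain ⟨⟨i, q | q⟩, hq⟩ := Sum.isLeft_iff.1 (Finset.mem_filter.1 hk).2
    · exact ⟨i, q, .inl (by rw [hq]; exact (h4 i q).1)⟩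
    · exact ⟨i, q, .inr (by rw [hq]; exact (h4 i q).2)⟩
  · obtain ⟨l, hl⟩ := Sum.isRight_iff.1 (Sum.not_isLeft.1 fun h' =>
      hk (Finset.mem_filter.2 ⟨Finset.mem_univ _, h'⟩))
    exact ⟨l, by rw [hl]; rfl⟩
  · rw [div_mul_eq_mul_div, div_le_iff₀ (by positivity), ← prod_w I L N0.ne', ← mul_assoc]
    exact mul_le_mul_of_nonneg_right hle (by positivity)

end Pool.Agent.MP_8d06cc_nt.AN
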