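import Pool.Agent.MP_8d06cc_nt.AB.Defs

/-! Jets of families for block AN. -/

set_option autoImplicit false

namespace Pool.Agent.MP_8d06cc_nt.AN

open Polynomial Filter Topology AB

theorem fz_map {R S : Type} [CommRing R] [CommRing S] (φ : R →+* S) (e : Fin 8 → R) :
    (fz e).map φ = fz fun i => φ (e i) := by
  simp [fz, Polynomial.map_prod]

theorem fz_eval {R : Type} [CommRing R] (e : Fin 8 → R) (x : R) :
    (fz e).eval x = ∏ i, (x - e i) := by
  simp [fz, eval_prod]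

theorem fz_monic {R : Type} [CommRing R] (e : Fin 8 → R) : (fz e).Monic :=
  monic_prod_of_monic _ _ fun _ _ => monic_X_sub_C _

theorem fz_deg (e : Fin 8 → ℂ) : (fz e).natDegree = 8 := by
  rw [fz, natDegree_prod_of_monic _ _ fun _ _ => monic_X_sub_C _]
  simp

section jet

variable {R : Type} [CommRing R] (J : Jet R)

theorem dt_sub (a b : R) : J.dt (a - b) = J.dt a - J.dt b := by
  have := J.add (a - b) b
  rw [sub_add_cancel] at this
  rw [this]; ring

theorem dt_one : J.dt 1 = 0 := by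
  have := J.mul 1 1
  rw [mul_one, map_one] at this
  linear_combination -this

theorem dt_prod {ι : Type} [DecidableEq ι] (s : Finset ι) (a : ι → R) :
    J.dt (∏ i ∈ s, a i) = ∑ i ∈ s, J.dt (a i) * ∏ k ∈ s.erase i, J.ev (a k) := by
  induction s using Finset.induction_on with
  | empty => simp [dt_one]
  | insert j s hj ih =>
    rw [Finset.prod_insert hj, J.mul, ih, Finset.sum_insert hj, Finset.erase_insert hj, map_prod,
      Finset.mul_sum, add_comm, mul_comm]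
    refine congrArg _ (Finset.sum_congr rfl fun i hi => ?_)
    have h : j ≠ i := fun h => hj (h ▸ hi)
    rw [Finset.erase_insert_of_ne h, Finset.prod_insert fun h' => hj (Finset.mem_of_mem_erase h')]
    ring

theorem jet_pt {e : Fin 8 → R} {x y : R} (h : y ^ 2 = (fz e).eval x) :
    J.ev y ^ 2 = (fz fun i => J.ev (e i)).eval (J.ev x) ∧
      2 * J.ev y * J.dt y =
        ∑ i, (J.dt x - J.dt (e i)) * ∏ k ∈ Finset.univ.erase i, (J.ev x - J.ev (e k)) := by
  rw [fz_eval] at h ⊢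
  constructor
  · rw [← map_pow, h, map_prod]
    simp
  · have h1 := congrArg J.dt h
    rw [sq, J.mul, dt_prod] at h1
    simp only [dt_sub, map_sub] at h1
    rw [← h1]; ring

end jet

variable {E : Type} [Field E] [CharZero E] {d : ℕ} {t : Fin d → E} {R : Subalgebra ℚ E}

theorem fam_cd (F : Fam t R) {τ : Fin d → ℂ} (h : τ ∈ F.V) (r : R) :
    ContDiffAt ℂ 2 (fun σ => F.Y σ r) τ :=
  (F.sm r).contDiffAt (F.op.mem_nhds h)

theorem fam_diff (F : Fam t R) {τ : Fin d → ℂ} (h : τ ∈ F.V) (r : R) :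
    DifferentiableAt ℂ (fun σ => F.Y σ r) τ :=
  (fam_cd F h r).differentiableAt (by norm_num)

theorem fam_cont (F : Fam t R) {τ : Fin d → ℂ} (h : τ ∈ F.V) (r : R) :
    ContinuousAt (fun σ => F.Y σ r) τ :=
  (fam_cd F h r).continuousAt

theorem fam_contD (F : Fam t R) {τ : Fin d → ℂ} (h : τ ∈ F.V) (ξ : Fin d → ℂ) (r : R) :
    ContinuousAt (fun σ => F.D σ ξ r) τ :=
  ((fam_cd F h r).continuousAt_fderiv (by norm_num)).clm_apply continuousAt_const

theorem fam_bd (F : Fam t R) {τ : Fin d → ℂ} (h : τ ∈ F.V) (r : R) :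
    ∃ C : ℝ, 0 ≤ C ∧ ∀ᶠ σ in 𝓝 τ, ‖F.Y σ r‖ ≤ C ∧ ∀ ξ, ‖F.D σ ξ r‖ ≤ C * ‖ξ‖ := by
  have h1 := (fam_cont F h r).norm.eventually_lt_const (lt_add_one _)
  have h2 := ((fam_cd F h r).continuousAt_fderiv (by norm_num)).norm.eventually_lt_const
    (lt_add_one _)
  refine ⟨(‖F.Y τ r‖ + 1) + (‖fderiv ℂ (fun σ => F.Y σ r) τ‖ + 1), by positivity, ?_⟩
  filter_upwards [h1, h2] with σ a b
  refine ⟨a.le.trans (le_add_of_nonneg_right (by positivity)), fun ξ => ?_⟩
  refine (ContinuousLinearMap.le_opNorm _ _).trans (mul_le_mul_of_nonneg_right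
    (b.le.trans (le_add_of_nonneg_left (by positivity))) (norm_nonneg _))

/-- One constant for finitely many elements. -/
theorem fam_bds (F : Fam t R) {τ : Fin d → ℂ} (h : τ ∈ F.V) {ι : Type} [Fintype ι] (r : ι → R) :
    ∃ C : ℝ, 0 ≤ C ∧ ∀ᶠ σ in 𝓝 τ, ∀ i, ‖F.Y σ (r i)‖ ≤ C ∧ ∀ ξ, ‖F.D σ ξ (r i)‖ ≤ C * ‖ξ‖ := by
  choose C h0 hC using fun i => fam_bd F h (r i)
  refine ⟨∑ i, C i, Finset.sum_nonneg fun i _ => h0 i, ?_⟩
  filter_upwards [eventually_all.2 hC] with σ hσ i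
  have := Finset.single_le_sum (f := C) (fun i _ => h0 i) (Finset.mem_univ i)
  exact ⟨(hσ i).1.trans this, fun ξ => ((hσ i).2 ξ).trans
    (mul_le_mul_of_nonneg_right this (norm_nonneg _))⟩

/-- the jet of a family -/
noncomputable def jet (F : Fam t R) {τ : Fin d → ℂ} (h : τ ∈ F.V) (ξ : Fin d → ℂ) : Jet R where
  ev := F.Y τ
  dt := F.D τ ξ
  add a b := by
    simp only [Fam.D, map_add]
    rw [fderiv_fun_add (fam_diff F h a) (fam_diff F h b)]
    rfl
  mul a b := by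
    simp only [Fam.D, map_mul]
    rw [fderiv_fun_mul (fam_diff F h a) (fam_diff F h b)]
    rfl

theorem fam_ext {R1 : Subalgebra ℚ E} (F : Fam t R) (F1 : Fam t R1) (φ : R → R1)
    (h : ∀ σ ∈ F1.V, ∀ r, F1.Y σ (φ r) = F.Y σ r) {τ : Fin d → ℂ} (hτ : τ ∈ F1.V)
    (ξ : Fin d → ℂ) (r : R) : F1.D τ ξ (φ r) = F.D τ ξ r := by
  have : (fun σ => F1.Y σ (φ r)) =ᶠ[𝓝 τ] fun σ => F.Y σ r := by
    filter_upwards [F1.op.mem_nhds hτ] with σ hσ using h σ hσ r
  simp only [Fam.D]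
  rw [this.fderiv_eq]

end Pool.Agent.MP_8d06cc_nt.AN
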