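import Pool.Agent.MP_8d06cc_nt.AN.Cont

/-! The uniform lower bound near a non-degenerate point. -/

set_option autoImplicit false

namespace Pool.Agent.MP_8d06cc_nt.AN

open Polynomial Filter Topology AB

theorem lower_pt {X E F : Type} [TopologicalSpace X] [NormedAddCommGroup E] [NormedSpace ℂ E]
    [FiniteDimensional ℂ E] [NormedAddCommGroup F] [NormedSpace ℂ F] (T : X → E → F) {x : X}
    (hl : ∀ y, IsLinearMap ℂ (T y)) (hc : ∀ ξ, ContinuousAt (T · ξ) x)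
    (h : ∀ ξ, T x ξ = 0 → ξ = 0) : ∃ c : ℝ, 0 < c ∧ ∀ᶠ y in 𝓝 x, ∀ ξ, c * ‖ξ‖ ≤ ‖T y ξ‖ :=
  lower_near (fun y => LinearMap.toContinuousLinearMap (IsLinearMap.mk' _ (hl y)))
    (continuousAt_clm_apply.2 hc) h

theorem pi_le_sum {ι F : Type} [Fintype ι] [NormedAddCommGroup F] (a : ι → F) :
    ‖a‖ ≤ ∑ i, ‖a i‖ :=
  (pi_norm_le_iff_of_nonneg (Finset.sum_nonneg fun _ _ => norm_nonneg _)).2 fun i =>
    Finset.single_le_sum (f := fun i => ‖a i‖) (fun _ _ => norm_nonneg _) (Finset.mem_univ i)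

theorem Sg_lin (e u v : Fin 8 → ℂ) (a b : ℂ) (g : ℂ → ℂ) (j : Fin 3) :
    Sg e (fun i => a * u i + b * v i) g j = a * Sg e u g j + b * Sg e v g j := by
  simp only [Sg, Finset.mul_sum, ← Finset.sum_add_distrib]
  exact Finset.sum_congr rfl fun _ _ => by ring

theorem BtE_lin {R ι : Type} [CommRing R] [Fintype ι] (Λ : (ℂ → ℂ) → Fin 3 → ℂ) (ev : R →+* ℂ)
    (u v : R → ℂ) (a b : ℂ) (e : Fin 8 → R) (x y : ι → R) (n : ι → ℤ) (ν : ℤ) (j : Fin 3) :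
    BtE Λ ev (fun r => a * u r + b * v r) e x y n ν j =
      a * BtE Λ ev u e x y n ν j + b * BtE Λ ev v e x y n ν j := by
  simp only [BtE, Bt, BtI, Sg_lin]
  rw [mul_add a, mul_add b, add_add_add_comm, Finset.mul_sum, Finset.mul_sum,
    ← Finset.sum_add_distrib]
  exact congrArg₂ _ (Finset.sum_congr rfl fun _ _ => by ring) (by ring)

variable {E : Type} [Field E] [CharZero E] {d : ℕ} {t : Fin d → E} {R : Subalgebra ℚ E}

theorem D_lin (F : Fam t R) (τ u v : Fin d → ℂ) (a b : ℂ) :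
    F.D τ (a • u + b • v) = fun r => a * F.D τ u r + b * F.D τ v r := by
  funext r
  simp [Fam.D]

theorem inj_e {R : Type} [CommRing R] {e : Fin 8 → R} (he : ∀ i j, i ≠ j → IsUnit (e i - e j))
    (φ : R →+* ℂ) : Function.Injective fun i => φ (e i) := fun i j h => by
  by_contra hn
  exact ((he i j hn).map φ).ne_zero (by rw [map_sub, sub_eq_zero]; exact h)

theorem cont_coeff (F : Fam t R) {τ : Fin d → ℂ} (h : τ ∈ F.V) (e : Fin 8 → R) (i : ℕ) :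
    ContinuousAt (fun σ => (fz fun k => F.Y σ (e k)).coeff i) τ := by
  simp only [← fz_map, coeff_map]
  exact fam_cont F h _

theorem cont_BtE (F : Fam t R) {e : Fin 8 → R} {ι : Type} [Fintype ι] {x y : ι → R} (m : ι → ℤ)
    (ν : ℤ) (hp : Pts e x y) {f0 : ℂ[X]} {Z : Finset ℂ} (rn : RN f0 Z) (s : Fin rn.n)
    {τ : Fin d → ℂ} (h : τ ∈ F.V) (hcl : Cl f0 rn.ε (fz fun i => F.Y τ (e i)))
    (hz : ∀ p, ∃ z ∈ Z, ‖F.Y τ (x p) - z‖ < rn.δ) (ξ : Fin d → ℂ) (j : Fin 3) :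
    ContinuousAt (fun σ => BtE (rn.Λ (fz fun i => F.Y σ (e i)) s) (F.Y σ) (F.D σ ξ) e x y m ν j)
      τ := by
  have c := fam_cont F h
  have cD := fam_contD F h ξ
  have cc := cont_coeff F h e
  have hi := inj_e hp.de (F.Y τ)
  refine ContinuousAt.add (tendsto_finsetSum _ fun p _ => ContinuousAt.mul continuousAt_const
    (ContinuousAt.add (((cD _).mul ((c _).pow _)).div₀ (c _) ((hp.uy p).map _).ne_zero) ?_))
    (continuousAt_const.mul ?_)
  · refine cont_Sg (g := fun σ u => F.Y σ (y p) / (u - F.Y σ (x p)) -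
      qv (rn.Λ (fz fun i => F.Y σ (e i)) s fun w => F.Y σ (y p) / (w - F.Y σ (x p))) u)
      (fun i => c _) (fun i => cD _) (fun i => ?_) hi j
    refine ((c _).div₀ ((c _).sub (c _)) fun h0 => ?_).sub
      (cont_qv (cont_pole rn s cc hcl (c _) (c _) (hz p)) (c _))
    have h1 := (jet_pt (jet F h ξ) (hp.eqn p)).1
    rw [fz_eval, Finset.prod_eq_zero (Finset.mem_univ i)
      (by rw [← neg_sub, neg_eq_zero]; exact h0)] at h1
    exact ((hp.uy p).map _).ne_zero (pow_eq_zero_iff two_ne_zero |>.1 h1)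
  · exact cont_Sg (g := fun σ u => u ^ 3 -
      qv (rn.Λ (fz fun i => F.Y σ (e i)) s fun w => w ^ 3) u) (fun i => c _) (fun i => cD _)
      (fun i => ((c _).pow _).sub (cont_qv (cont_cube rn s cc hcl) (c _))) hi j

theorem low (F : Fam t R) {e : Fin 8 → R} {n : ℕ} {ι : Fin n → Type} [∀ i, Fintype (ι i)]
    {x y : ∀ i, ι i → R} (m : ∀ i, ι i → ℤ) (ν : Fin n → ℤ) {κ : Type} [Fintype κ] (kap : κ → R)
    (hp : ∀ i, Pts e (x i) (y i)) {f0 : ℂ[X]} {Z : Finset ℂ} (rn : RN f0 Z) (s : Fin rn.n)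
    {τ : Fin d → ℂ} (h : τ ∈ F.V) (hcl : Cl f0 rn.ε (fz fun i => F.Y τ (e i)))
    (hz : ∀ i p, ∃ z ∈ Z, ‖F.Y τ (x i p) - z‖ < rn.δ)
    (hi : ∀ ξ, (∀ i j, BtE (rn.Λ (fz fun i => F.Y τ (e i)) s) (F.Y τ) (F.D τ ξ) e (x i) (y i)
      (m i) (ν i) j = 0) → (∀ l, F.D τ ξ (kap l) = 0) → ξ = 0) :
    ∃ c : ℝ, 0 < c ∧ ∀ᶠ σ in 𝓝 τ, ∀ ξ, c * ‖ξ‖ ≤
      ∑ i, ‖BtE (rn.Λ (fz fun i => F.Y σ (e i)) s) (F.Y σ) (F.D σ ξ) e (x i) (y i) (m i) (ν i)‖ +
        ∑ l, ‖F.D σ ξ (kap l)‖ := by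
  have hl : ∀ σ (a b : ℂ) u v, ((fun i => BtE (rn.Λ (fz fun i => F.Y σ (e i)) s) (F.Y σ)
      (F.D σ (a • u + b • v)) e (x i) (y i) (m i) (ν i), fun l => F.D σ (a • u + b • v) (kap l)) :
      (Fin n → Fin 3 → ℂ) × (κ → ℂ)) = a • (fun i => BtE (rn.Λ (fz fun i => F.Y σ (e i)) s)
      (F.Y σ) (F.D σ u) e (x i) (y i) (m i) (ν i), fun l => F.D σ u (kap l)) +
      b • (fun i => BtE (rn.Λ (fz fun i => F.Y σ (e i)) s) (F.Y σ)
      (F.D σ v) e (x i) (y i) (m i) (ν i), fun l => F.D σ v (kap l)) := fun σ a b u v => by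
    rw [D_lin]
    exact Prod.ext (funext fun i => funext fun j => BtE_lin ..) rfl
  obtain ⟨c, c0, hc⟩ := lower_pt (x := τ) (fun σ ξ => ((fun i => BtE (rn.Λ (fz fun i =>
      F.Y σ (e i)) s) (F.Y σ) (F.D σ ξ) e (x i) (y i) (m i) (ν i), fun l => F.D σ ξ (kap l)) :
      (Fin n → Fin 3 → ℂ) × (κ → ℂ)))
    (fun σ => ⟨fun u v => by simpa only [one_smul] using hl σ 1 1 u v,
      fun a u => by simpa only [zero_smul, add_zero] using hl σ a 0 u u⟩)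
    (fun ξ => (continuousAt_pi.2 fun i => continuousAt_pi.2 fun j =>
      cont_BtE F _ _ (hp i) rn s h hcl (hz i) ξ j).prodMk
      (continuousAt_pi.2 fun l => fam_contD F h ξ _))
    fun ξ h0 => hi ξ (fun i j => congrFun (congrFun (congrArg Prod.fst h0) i) j)
      fun l => congrFun (congrArg Prod.snd h0) l
  refine ⟨c, c0, hc.mono fun σ hσ ξ => (hσ ξ).trans ?_⟩
  rw [Prod.norm_def]
  exact max_le ((pi_le_sum _).trans (le_add_of_nonneg_right (by positivity)))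
    ((pi_le_sum _).trans (le_add_of_nonneg_left (by positivity)))

end Pool.Agent.MP_8d06cc_nt.AN
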